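import Mathlib
import Pool.Agent.Helper254.Dir.Param

/-!
# Volterra equations of the first kind with a smooth kernel
-/

open MeasureTheory Set Filter Topology
open scoped ContDiff

namespace Pool.Agent.H172Z.Morera

theorem contDiff_par {E : Type} [NormedAddCommGroup E] [NormedSpace ℝ E] [FiniteDimensional ℝ E]
    (F : E → ℝ → ℝ) (hF : ContDiff ℝ ∞ (fun p : E × ℝ => F p.1 p.2)) (a b : ℝ) :
    ContDiff ℝ ∞ (fun x => ∫ t in a..b, F x t) :=
  contDiff_infty.2 fun m =>
    Pool.Agent.Helper254.Dir.contDiff_param_aux a b m ℝ F (contDiff_infty.1 hF m)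

theorem hasDerivAt_par (a b : ℝ) (φ φ' : ℝ → ℝ → ℝ) (hφ : ∀ y, Continuous (φ y))
    (hφ' : Continuous (Function.uncurry φ')) (hd : ∀ y t, HasDerivAt (fun y => φ y t) (φ' y t) y)
    (y0 : ℝ) : HasDerivAt (fun y => ∫ t in a..b, φ y t) (∫ t in a..b, φ' y0 t) y0 := by
  obtain ⟨C, hC⟩ := ((isCompact_closedBall y0 1).prod
    (isCompact_uIcc (a := a) (b := b))).exists_bound_of_continuousOn hφ'.continuousOn
  have h := intervalIntegral.hasDerivAt_integral_of_dominated_loc_of_deriv_le (μ := volume)
    (F := φ) (F' := φ') (x₀ := y0) (s := Metric.ball y0 1) (a := a) (b := b) (bound := fun _ => C)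
    (Metric.ball_mem_nhds y0 one_pos)
    (Eventually.of_forall fun y => (hφ y).aestronglyMeasurable)
    ((hφ y0).intervalIntegrable _ _)
    ((hφ'.comp (by fun_prop : Continuous fun t => (y0, t))).aestronglyMeasurable)
    (Eventually.of_forall fun t ht y hy => hC (y, t)
      ⟨Metric.ball_subset_closedBall hy, uIoc_subset_uIcc ht⟩)
    intervalIntegrable_const
    (Eventually.of_forall fun t _ y _ => hd y t)
  exact h.2

theorem hasDerivAt_short (G : ℝ → ℝ → ℝ) (hG : Continuous (Function.uncurry G)) (s : ℝ) :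
    HasDerivAt (fun y => ∫ u in s..y, G y u) (G s s) s := by
  have h1 : ∀ y, ∫ u in s..y, G y u = (y - s) * ∫ t in (0:ℝ)..1, G y ((y - s) * t + s) := by
    intro y
    have := intervalIntegral.smul_integral_comp_mul_add (a := 0) (b := 1) (f := G y) (y - s) s
    simp only [mul_zero, zero_add, mul_one, sub_add_cancel, smul_eq_mul] at this
    exact this.symm
  have h2 : Continuous fun y => ∫ t in (0:ℝ)..1, G y ((y - s) * t + s) :=
    intervalIntegral.continuous_parametric_intervalIntegral_of_continuous'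
      (f := fun y t => G y ((y - s) * t + s))
      (hG.comp (by fun_prop : Continuous fun p : ℝ × ℝ => (p.1, (p.1 - s) * p.2 + s))) 0 1
  rw [hasDerivAt_iff_tendsto_slope]
  have h3 := h2.tendsto s
  simp only [sub_self, zero_mul, zero_add, intervalIntegral.integral_const, sub_zero, smul_eq_mul,
    one_mul] at h3
  refine (h3.mono_left nhdsWithin_le_nhds).congr' ?_
  filter_upwards [self_mem_nhdsWithin] with y hy
  have hy' : y - s ≠ 0 := sub_ne_zero.2 hy
  rw [slope_def_field, h1 y, h1 s]
  field_simp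
  ring

/-- the partial derivative in the first variable -/
noncomputable def D1 (κ : ℝ × ℝ → ℝ) (p : ℝ × ℝ) : ℝ := fderiv ℝ κ p (1, 0)

theorem contDiff_D1 {κ : ℝ × ℝ → ℝ} (hκ : ContDiff ℝ ∞ κ) : ContDiff ℝ ∞ (D1 κ) := by
  have h : ContDiff ℝ ∞ (fderiv ℝ κ) := hκ.fderiv_right (by simp)
  exact h.clm_apply contDiff_const

theorem hasDerivAt_D1 {κ : ℝ × ℝ → ℝ} (hκ : ContDiff ℝ ∞ κ) (s σ : ℝ) :
    HasDerivAt (fun y => κ (y, σ)) (D1 κ (s, σ)) s := by
  have h1 : HasDerivAt (fun y : ℝ => (y, σ)) ((1 : ℝ), (0 : ℝ)) s :=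
    (hasDerivAt_id s).prodMk (hasDerivAt_const s σ)
  exact ((hκ.differentiable (by simp)) (s, σ)).hasFDerivAt.comp_hasDerivAt s h1

/-- the Leibniz rule -/
theorem hasDerivAt_volterra {h : ℝ → ℝ} (hh : Continuous h) {κ : ℝ × ℝ → ℝ}
    (hκ : ContDiff ℝ ∞ κ) (c s : ℝ) :
    HasDerivAt (fun y => ∫ u in c..y, h u * κ (y, u))
      (h s * κ (s, s) + ∫ u in c..s, h u * D1 κ (s, u)) s := by
  have hc := hκ.continuous
  have hc1 := (contDiff_D1 hκ).continuous
  have h1 := hasDerivAt_par c s (fun y u => h u * κ (y, u)) (fun y u => h u * D1 κ (y, u))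
    (fun y => by fun_prop) (by
      show Continuous fun p : ℝ × ℝ => h p.2 * D1 κ (p.1, p.2)
      fun_prop) (fun y t => (hasDerivAt_D1 hκ y t).const_mul (h t)) s
  have h2 := hasDerivAt_short (fun y u => h u * κ (y, u)) (by
    show Continuous fun p : ℝ × ℝ => h p.2 * κ (p.1, p.2)
    fun_prop) s
  have h3 := h2.add h1
  refine h3.congr_of_eventuallyEq (Eventually.of_forall fun y => ?_)
  have h4 : Continuous fun u => h u * κ (y, u) := by fun_prop
  simp only [Pi.add_apply]
  rw [add_comm]
  exact (intervalIntegral.integral_add_adjacent_intervals (h4.intervalIntegrable _ _)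
    (h4.intervalIntegrable _ _)).symm

theorem contDiff_volterra (c : ℝ) (m : ℕ) : ∀ (h : ℝ → ℝ) (κ : ℝ × ℝ → ℝ), ContDiff ℝ m h →
    ContDiff ℝ ∞ κ → ContDiff ℝ (m + 1 : ℕ) (fun y => ∫ u in c..y, h u * κ (y, u)) := by
  induction m with
  | zero =>
    intro h κ hh hκ
    have hc := hh.continuous
    have e : ((0 + 1 : ℕ) : WithTop ℕ∞) = 0 + 1 := by simp
    rw [e, contDiff_succ_iff_deriv]
    refine ⟨fun s => (hasDerivAt_volterra hc hκ c s).differentiableAt, by simp, ?_⟩
    rw [contDiff_zero]
    have e2 : deriv (fun y => ∫ u in c..y, h u * κ (y, u)) =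
        fun s => h s * κ (s, s) + ∫ u in c..s, h u * D1 κ (s, u) :=
      funext fun s => (hasDerivAt_volterra hc hκ c s).deriv
    rw [e2]
    have h1 := hκ.continuous
    refine Continuous.add (by fun_prop) ?_
    exact continuous_iff_continuousAt.2 fun s =>
      (hasDerivAt_volterra hc (contDiff_D1 hκ) c s).continuousAt
  | succ m ih =>
    intro h κ hh hκ
    have hc := hh.continuous
    have e : ((m + 1 + 1 : ℕ) : WithTop ℕ∞) = ((m + 1 : ℕ) : WithTop ℕ∞) + 1 := by simp
    rw [e, contDiff_succ_iff_deriv]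
    refine ⟨fun s => (hasDerivAt_volterra hc hκ c s).differentiableAt, by simp, ?_⟩
    have e2 : deriv (fun y => ∫ u in c..y, h u * κ (y, u)) =
        fun s => h s * κ (s, s) + ∫ u in c..s, h u * D1 κ (s, u) :=
      funext fun s => (hasDerivAt_volterra hc hκ c s).deriv
    rw [e2]
    refine ContDiff.add (hh.mul ?_) (ih h (D1 κ) (hh.of_le (by exact_mod_cast Nat.le_succ m))
      (contDiff_D1 hκ))
    exact (contDiff_infty.1 hκ (m + 1)).comp (contDiff_id.prodMk contDiff_id)

/-- Volterra equations of the second kind with bounded data -/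
theorem exists_second_kind (c : ℝ) (φ : ℝ → ℝ) (hφ : Continuous φ) (hφ0 : ∀ s ≤ c, φ s = 0)
    (B : ℝ) (hB : ∀ s, |φ s| ≤ B) (L : ℝ × ℝ → ℝ) (hL : Continuous L) (M : ℝ) (hM0 : 0 < M)
    (hM : ∀ s σ, c ≤ σ → σ ≤ s → |L (s, σ)| ≤ M) :
    ∃ H : ℝ → ℝ, Continuous H ∧ (∀ s ≤ c, H s = 0) ∧
      ∀ s, H s = φ s - ∫ u in c..s, H u * L (s, u) := by
  set lam := 2 * M with hlam
  have hlam0 : 0 < lam := by positivity
  let V : (BoundedContinuousFunction ℝ ℝ) → ℝ → ℝ := fun k s =>
    ∫ u in c..max s c, k u * (Real.exp (-lam * (s - u)) * L (s, u))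
  have hVc : ∀ k, Continuous (V k) := by
    intro k
    refine intervalIntegral.continuous_parametric_intervalIntegral_of_continuous
      (f := fun s u => k u * (Real.exp (-lam * (s - u)) * L (s, u))) ?_ (by fun_prop)
    show Continuous fun p : ℝ × ℝ => k p.2 * (Real.exp (-lam * (p.1 - p.2)) * L (p.1, p.2))
    fun_prop
  have hVb : ∀ k s, |V k s| ≤ ‖k‖ / 2 := by
    intro k s
    rcases le_total s c with h | h
    · simp only [V, max_eq_right h, intervalIntegral.integral_same, abs_zero]
      positivity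
    · simp only [V, max_eq_left h]
      have h1 : ∫ u in c..s, ‖k‖ * M * Real.exp (-lam * (s - u)) =
          ‖k‖ / 2 * (1 - Real.exp (-lam * (s - c))) := by
        have h2 : ∀ u ∈ uIcc c s, HasDerivAt (fun u => ‖k‖ / 2 * Real.exp (-lam * (s - u)))
            (‖k‖ * M * Real.exp (-lam * (s - u))) u := by
          intro u _
          have h3 : HasDerivAt (fun u => -lam * (s - u)) lam u := by
            simpa using ((hasDerivAt_id u).const_sub s).const_mul (-lam)
          have h4 := h3.exp.const_mul (‖k‖ / 2)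
          refine h4.congr_deriv ?_
          rw [hlam]; ring
        rw [intervalIntegral.integral_eq_sub_of_hasDerivAt h2
          (Continuous.intervalIntegrable (by fun_prop) _ _)]
        simp only [sub_self, mul_zero, Real.exp_zero]
        ring
      have h5 : |∫ u in c..s, k u * (Real.exp (-lam * (s - u)) * L (s, u))| ≤
          ∫ u in c..s, ‖k‖ * M * Real.exp (-lam * (s - u)) := by
        rw [← Real.norm_eq_abs]
        refine intervalIntegral.norm_integral_le_of_norm_le h
          (Eventually.of_forall fun u hu => ?_) (Continuous.intervalIntegrable (by fun_prop) _ _)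
        rw [Real.norm_eq_abs, abs_mul, abs_mul, abs_of_pos (Real.exp_pos _)]
        have h6 : |k u| ≤ ‖k‖ := k.norm_coe_le_norm u
        have h7 := hM s u hu.1.le hu.2
        have h8 := Real.exp_pos (-lam * (s - u))
        calc |k u| * (Real.exp (-lam * (s - u)) * |L (s, u)|)
            ≤ ‖k‖ * (Real.exp (-lam * (s - u)) * M) := by gcongr
          _ = _ := by ring
      refine h5.trans ?_
      rw [h1]
      have h9 := Real.exp_pos (-lam * (s - c))
      have h10 : 0 ≤ ‖k‖ / 2 := by positivity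
      nlinarith
  have hφb : ∀ s, |Real.exp (-lam * (s - c)) * φ s| ≤ B := by
    intro s
    rcases le_total s c with h | h
    · rw [hφ0 s h, mul_zero, abs_zero]
      exact (abs_nonneg _).trans (hB s)
    · rw [abs_mul, abs_of_pos (Real.exp_pos _)]
      have h1 : Real.exp (-lam * (s - c)) ≤ 1 := Real.exp_le_one_iff.2 (by nlinarith)
      calc _ ≤ 1 * |φ s| := by gcongr
        _ ≤ B := by rw [one_mul]; exact hB s
  let T : (BoundedContinuousFunction ℝ ℝ) → (BoundedContinuousFunction ℝ ℝ) := fun k =>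
    BoundedContinuousFunction.ofNormedAddCommGroup
      (fun s => Real.exp (-lam * (s - c)) * φ s - V k s)
      (Continuous.sub (by fun_prop) (hVc k)) (B + ‖k‖ / 2) fun s => by
        rw [Real.norm_eq_abs]
        exact (abs_sub _ _).trans (add_le_add (hφb s) (hVb k s))
  have hT : ∀ k s, T k s = Real.exp (-lam * (s - c)) * φ s - V k s := fun _ _ => rfl
  have hcon : ContractingWith (1 / 2) T := by
    refine ⟨by norm_num, LipschitzWith.of_dist_le_mul fun k k' => ?_⟩
    rw [BoundedContinuousFunction.dist_le (by positivity)]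
    intro s
    have h1 : V k' s - V k s = V (k' - k) s := by
      simp only [V]
      rw [← intervalIntegral.integral_sub (Continuous.intervalIntegrable (by fun_prop) _ _)
        (Continuous.intervalIntegrable (by fun_prop) _ _)]
      congr 1
      funext u
      simp only [BoundedContinuousFunction.coe_sub, Pi.sub_apply]
      ring
    rw [Real.dist_eq, hT, hT]
    have h2 : Real.exp (-lam * (s - c)) * φ s - V k s - (Real.exp (-lam * (s - c)) * φ s - V k' s)
        = V (k' - k) s := by rw [← h1]; ring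
    rw [h2, dist_comm, dist_eq_norm]
    have := hVb (k' - k) s
    push_cast
    linarith
  let k := hcon.fixedPoint T
  have hk : ∀ s, k s = Real.exp (-lam * (s - c)) * φ s - V k s := fun s => by
    rw [← hT]
    exact (congrArg (fun f : BoundedContinuousFunction ℝ ℝ => f s) hcon.fixedPoint_isFixedPt).symm
  have hk0 : ∀ s ≤ c, k s = 0 := by
    intro s h
    rw [hk, hφ0 s h]
    simp only [V, max_eq_right h, intervalIntegral.integral_same]
    ring
  refine ⟨fun s => Real.exp (lam * (s - c)) * k s, by fun_prop, fun s h => by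
    simp only [hk0 s h, mul_zero], fun s => ?_⟩
  rcases le_total s c with h | h
  · simp only [hk0 s h, mul_zero, hφ0 s h, zero_sub]
    rw [intervalIntegral.integral_congr (g := fun _ => 0)]
    · simp
    · intro u hu
      rw [uIcc_of_ge h] at hu
      simp only [hk0 u hu.2, mul_zero, zero_mul]
  · simp only
    rw [hk s]
    simp only [V, max_eq_left h]
    rw [mul_sub, ← mul_assoc, ← Real.exp_add, ← intervalIntegral.integral_const_mul]
    congr 1
    · simp
    · congr 1
      funext u
      have : Real.exp (lam * (u - c)) = Real.exp (lam * (s - c)) * Real.exp (-lam * (s - u)) := by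
        rw [← Real.exp_add]; congr 1; ring
      rw [this]; ring

/-- Volterra equations of the first kind -/
theorem exists_first_kind (c c' : ℝ) (hcc : c < c') (F : ℝ → ℝ) (hF : ContDiff ℝ ∞ F)
    (hF0 : ∀ s ≤ c, F s = 0) (κ : ℝ × ℝ → ℝ) (hκ : ContDiff ℝ ∞ κ) (hd : ∀ s, κ (s, s) ≠ 0) :
    ∃ H : ℝ → ℝ, ContDiff ℝ ∞ H ∧ (∀ s ≤ c, H s = 0) ∧
      ∀ s ∈ Icc c c', ∫ u in c..s, H u * κ (s, u) = F s := by
  let χ : ContDiffBump ((c + c') / 2) := ⟨(c' - c) / 2, (c' - c) / 2 + 1, by linarith, by linarith⟩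
  have hχ1 : ∀ s ∈ Icc c c', χ s = 1 := by
    intro s hs
    apply χ.one_of_mem_closedBall
    rw [Metric.mem_closedBall, Real.dist_eq, abs_le]
    show -((c' - c) / 2) ≤ _ ∧ _ ≤ (c' - c) / 2
    constructor <;> linarith [hs.1, hs.2]
  have hχ0 : ∀ s, c' + 1 ≤ s → χ s = 0 := by
    intro s hs
    apply χ.zero_of_le_dist
    rw [Real.dist_eq]
    show (c' - c) / 2 + 1 ≤ _
    exact le_trans (by linarith) (le_abs_self _)
  have hχ : ContDiff ℝ ∞ χ := χ.contDiff
  have hdiag : ContDiff ℝ ∞ fun s : ℝ => κ (s, s) := hκ.comp (contDiff_id.prodMk contDiff_id)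
  have hF' : ContDiff ℝ ∞ (deriv F) := (contDiff_infty_iff_deriv.1 hF).2
  have hF'0 : ∀ s ≤ c, deriv F s = 0 := by
    have h1 : ∀ s < c, deriv F s = 0 := by
      intro s hs
      have : F =ᶠ[𝓝 s] fun _ => 0 := by
        filter_upwards [Iio_mem_nhds hs] with y hy using hF0 y (le_of_lt hy)
      rw [this.deriv_eq]; simp
    have h2 : IsClosed {s | deriv F s = 0} := isClosed_eq hF'.continuous continuous_const
    intro s hs
    have h3 : closure (Iio c) ⊆ {s | deriv F s = 0} := h2.closure_subset_iff.2 h1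
    rw [closure_Iio] at h3
    exact h3 hs
  let φ : ℝ → ℝ := fun s => χ s * (deriv F s / κ (s, s))
  let L : ℝ × ℝ → ℝ := fun p => χ p.1 * (D1 κ p / κ (p.1, p.1))
  have hφ : ContDiff ℝ ∞ φ := hχ.mul (hF'.div hdiag hd)
  have hL : ContDiff ℝ ∞ L := (hχ.comp contDiff_fst).mul
    ((contDiff_D1 hκ).div (hdiag.comp contDiff_fst) fun p => hd p.1)
  obtain ⟨B, hB⟩ := (isCompact_Icc (a := c) (b := c' + 1)).exists_bound_of_continuousOn
    hφ.continuous.continuousOn
  obtain ⟨M, hM⟩ := ((isCompact_Icc (a := c) (b := c' + 1)).prod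
    (isCompact_Icc (a := c) (b := c' + 1))).exists_bound_of_continuousOn hL.continuous.continuousOn
  have hφ0 : ∀ s ≤ c, φ s = 0 := fun s hs => by simp only [φ, hF'0 s hs, zero_div, mul_zero]
  obtain ⟨H, hH1, hH2, hH3⟩ := exists_second_kind c φ hφ.continuous hφ0 (max B 0) (by
      intro s
      by_cases h1 : s ≤ c
      · rw [hφ0 s h1, abs_zero]; exact le_max_right _ _
      by_cases h2 : c' + 1 ≤ s
      · simp only [φ, hχ0 s h2, zero_mul, abs_zero]; exact le_max_right _ _
      · exact (hB s ⟨(not_le.1 h1).le, (not_le.1 h2).le⟩).trans (le_max_left _ _))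
    L hL.continuous (max M 1) (lt_of_lt_of_le one_pos (le_max_right _ _)) (by
      intro s σ h1 h2
      by_cases h3 : c' + 1 ≤ s
      · simp only [L, hχ0 s h3, zero_mul, abs_zero]
        exact le_trans zero_le_one (le_max_right _ _)
      · exact (hM (s, σ) ⟨⟨h1.trans h2, (not_le.1 h3).le⟩, h1, h2.trans (not_le.1 h3).le⟩).trans
          (le_max_left _ _))
  have hH : ContDiff ℝ ∞ H := by
    rw [contDiff_infty]
    intro m
    induction m with
    | zero => exact contDiff_zero.2 hH1
    | succ m ih =>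
      have e : H = fun s => φ s - ∫ u in c..s, H u * L (s, u) := funext hH3
      rw [e]
      exact (contDiff_infty.1 hφ _).sub (contDiff_volterra c m H L ih hL)
  refine ⟨H, hH, hH2, fun s hs => ?_⟩
  have hder : ∀ x ∈ Icc c c', HasDerivAt (fun y => (∫ u in c..y, H u * κ (y, u)) - F y) 0 x := by
    intro x hx
    have h1 := (hasDerivAt_volterra hH1 hκ c x).sub
      ((hF.differentiable (by simp)) x).hasDerivAt
    refine h1.congr_deriv ?_
    have h2 := hH3 x
    simp only [φ, L, hχ1 x hx, one_mul] at h2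
    have h3 : ∫ u in c..x, H u * (D1 κ (x, u) / κ (x, x)) =
        (∫ u in c..x, H u * D1 κ (x, u)) / κ (x, x) := by
      rw [← intervalIntegral.integral_div]
      congr 1
      funext u
      ring
    rw [h3] at h2
    have h4 := hd x
    rw [h2]
    field_simp
    ring
  have h5 := constant_of_has_deriv_right_zero
    (f := fun y => (∫ u in c..y, H u * κ (y, u)) - F y) (a := c) (b := c')
    (fun x hx => (hder x hx).continuousAt.continuousWithinAt)
    (fun x hx => (hder x ⟨hx.1, hx.2.le⟩).hasDerivWithinAt) s hs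
  simp only [intervalIntegral.integral_same, hF0 c le_rfl, sub_zero] at h5
  linarith

end Pool.Agent.H172Z.Morera
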