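import Mathlib
import Pool.Agent.H172Z.Morera.Volterra

/-!
# Circle means of half integrals
-/

open MeasureTheory Set Filter Topology Real
open scoped ContDiff

namespace Pool.Agent.H172Z.Morera

/-- the half integral -/
noncomputable def half (h : ℝ → ℝ) (t : ℝ) : ℝ := ∫ x in (-1:ℝ)..1, h (t - x ^ 2)

theorem contDiff_half {h : ℝ → ℝ} (hh : ContDiff ℝ ∞ h) : ContDiff ℝ ∞ (half h) :=
  contDiff_par (fun t x => h (t - x ^ 2)) (hh.comp (by fun_prop)) _ _

theorem continuous_half {h : ℝ → ℝ} (hh : Continuous h) : Continuous (half h) :=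
  intervalIntegral.continuous_parametric_intervalIntegral_of_continuous'
    (f := fun t x => h (t - x ^ 2))
    (hh.comp (by fun_prop : Continuous fun p : ℝ × ℝ => p.1 - p.2 ^ 2)) _ _

theorem half_eq_zero {h : ℝ → ℝ} {c : ℝ} (h0 : ∀ u ≤ c, h u = 0) {t : ℝ} (ht : t ≤ c) :
    half h t = 0 := by
  unfold half
  rw [intervalIntegral.integral_congr (g := fun _ => 0)]
  · simp
  · intro x _
    exact h0 _ (by nlinarith [sq_nonneg x])

/-- the kernel -/
noncomputable def ker (B v : ℝ) : ℝ :=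
  ∫ ψ in (-π)..π, (1 - v * sin ψ ^ 2 / B) / √(2 * B - v * sin ψ ^ 2)

theorem abel {h : ℝ → ℝ} (hh : Continuous h) {b B c : ℝ} (h0 : ∀ u ≤ c, h u = 0) (hB : 0 < B)
    (hcb : c ≤ b) (h1 : b - c < 1) (h2 : b - c < 2 * B) :
    ∫ φ in (-π)..π, half h (b - B + B * cos φ) * cos φ =
      ∫ v in (0:ℝ)..(b - c), h (b - v) * ker B v := by
  set η := 2 * B - (b - c) with hη
  have hη0 : 0 < η := by rw [hη]; linarith
  let W : ℝ → ℝ := fun v => (1 - v / B) / √(max (2 * B - v) η)
  have hW : Continuous W := by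
    refine Continuous.div (by fun_prop) (by fun_prop) fun v => ?_
    exact (Real.sqrt_pos.2 (hη0.trans_le (le_max_right _ _))).ne'
  have hWeq : ∀ v ≤ b - c, W v = (1 - v / B) / √(2 * B - v) := by
    intro v hv
    simp only [W]
    rw [max_eq_left (by rw [hη]; linarith)]
  have hg := continuous_half hh
  set m := √(2 * B) with hm
  have hm0 : 0 < m := Real.sqrt_pos.2 (by linarith)
  have hm2 : m ^ 2 = 2 * B := Real.sq_sqrt (by linarith)
  have hne : ∀ u, h u ≠ 0 → c < u := fun u hu => not_le.1 fun h' => hu (h0 u h')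
  -- step 1
  have s1 : ∫ φ in (-π)..π, half h (b - B + B * cos φ) * cos φ =
      ∫ y in (-m)..m, 2 * W (y ^ 2) * half h (b - y ^ 2) := by
    have e := intervalIntegral.integral_comp_mul_deriv (a := -π) (b := π)
      (f := fun φ => m * sin (φ / 2)) (f' := fun φ => m * (cos (φ / 2) * (1 / 2)))
      (g := fun y => 2 * W (y ^ 2) * half h (b - y ^ 2))
      (fun x _ => (((hasDerivAt_id x).div_const 2).sin).const_mul m) (by fun_prop) (by fun_prop)
    have e1 : m * sin (-π / 2) = -m := by rw [neg_div, sin_neg, sin_pi_div_two]; ring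
    have e2 : m * sin (π / 2) = m := by rw [sin_pi_div_two]; ring
    simp only [e1, e2] at e
    rw [← e]
    refine intervalIntegral.integral_congr fun φ hφ => ?_
    rw [uIcc_of_le (by linarith [pi_pos])] at hφ
    have hcos : cos φ = 1 - 2 * sin (φ / 2) ^ 2 := by
      have := cos_two_mul (φ / 2)
      rw [show 2 * (φ / 2) = φ by ring] at this
      rw [this]; nlinarith [sin_sq_add_cos_sq (φ / 2)]
    have hy : (m * sin (φ / 2)) ^ 2 = B - B * cos φ := by
      rw [mul_pow, hm2, hcos]; ring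
    have harg : b - (m * sin (φ / 2)) ^ 2 = b - B + B * cos φ := by rw [hy]; ring
    simp only [Function.comp]
    rw [harg]
    by_cases hz : b - B + B * cos φ ≤ c
    · rw [half_eq_zero h0 hz]; ring
    · have h3 : (m * sin (φ / 2)) ^ 2 ≤ b - c := by rw [hy]; linarith [not_le.1 hz]
      have hc0 : 0 ≤ cos (φ / 2) :=
        cos_nonneg_of_mem_Icc ⟨by linarith [hφ.1], by linarith [hφ.2]⟩
      have h4 : 2 * B - (m * sin (φ / 2)) ^ 2 = (m * cos (φ / 2)) ^ 2 := by
        rw [mul_pow, mul_pow, hm2]; nlinarith [sin_sq_add_cos_sq (φ / 2)]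
      have h5 : 0 < (m * cos (φ / 2)) ^ 2 := by rw [← h4]; linarith
      have h6 : m * cos (φ / 2) ≠ 0 := fun h => by rw [h] at h5; simp at h5
      have h7 : cos (φ / 2) ≠ 0 := fun h => h6 (by rw [h, mul_zero])
      rw [hWeq _ h3, h4, Real.sqrt_sq (mul_nonneg hm0.le hc0), hy]
      field_simp
      ring
  -- step 2
  let Φ : ℝ × ℝ → ℝ := fun p => 2 * W (p.2 ^ 2) * h (b - p.2 ^ 2 - p.1 ^ 2)
  have hΦ : Continuous Φ := by fun_prop
  have hΦi : Integrable Φ (volume.prod volume) := by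
    have : Integrable Φ volume := by
      refine hΦ.integrable_of_hasCompactSupport (HasCompactSupport.intro
        ((isCompact_Icc (a := (-1:ℝ)) (b := 1)).prod (isCompact_Icc (a := (-1:ℝ)) (b := 1))) ?_)
      intro p hp
      by_contra h3
      have h4 := hne _ (right_ne_zero_of_mul h3)
      apply hp
      refine ⟨⟨?_, ?_⟩, ?_, ?_⟩ <;> nlinarith [sq_nonneg p.1, sq_nonneg p.2]
    exact this
  have s2 : ∫ y in (-m)..m, 2 * W (y ^ 2) * half h (b - y ^ 2) = ∫ p, Φ p := by
    rw [intervalIntegral.integral_eq_integral_of_support_subset]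
    · rw [show (volume : Measure (ℝ × ℝ)) = volume.prod volume from rfl, integral_prod_symm _ hΦi]
      congr 1
      funext y
      simp only [Φ]
      rw [integral_const_mul]
      congr 1
      unfold half
      refine intervalIntegral.integral_eq_integral_of_support_subset fun x hx => ?_
      have h4 := hne _ hx
      constructor <;> nlinarith [sq_nonneg y]
    · intro y hy
      have h3 : c < b - y ^ 2 :=
        not_le.1 fun h' => (right_ne_zero_of_mul hy) (half_eq_zero h0 h')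
      constructor <;> nlinarith
  -- step 3
  let Ψ : ℝ × ℝ → ℝ := fun p => p.1 * h (b - p.1 ^ 2) * (2 * W (p.1 ^ 2 * sin p.2 ^ 2))
  have hΨ : Continuous Ψ := by fun_prop
  have s3 : ∫ p, Φ p = ∫ ρ in Ioi (0:ℝ), ∫ ψ in Ioo (-π) π, Ψ (ρ, ψ) := by
    rw [← integral_comp_polarCoord_symm, polarCoord_target, ← setIntegral_prod]
    · refine setIntegral_congr_fun (measurableSet_Ioi.prod measurableSet_Ioo) fun p _ => ?_
      simp only [Φ, Ψ, polarCoord_symm_apply, smul_eq_mul]
      have e : b - (p.1 * sin p.2) ^ 2 - (p.1 * cos p.2) ^ 2 = b - p.1 ^ 2 := by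
        nlinarith [sin_sq_add_cos_sq p.2]
      rw [e, mul_pow]
      ring
    · refine IntegrableOn.of_forall_diff_eq_zero
        (s := Icc (0:ℝ) 1 ×ˢ Icc (-π) π) (hΨ.continuousOn.integrableOn_compact
          (isCompact_Icc.prod isCompact_Icc)) (measurableSet_Ioi.prod measurableSet_Ioo) ?_
      intro p hp
      have h3 : 1 < p.1 := not_le.1 fun h' =>
        hp.2 ⟨⟨le_of_lt hp.1.1, h'⟩, hp.1.2.1.le, hp.1.2.2.le⟩
      simp only [Ψ]
      rw [h0 _ (by nlinarith)]
      ring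
  -- step 4
  let k : ℝ → ℝ := fun v => ∫ ψ in (-π)..π, W (v * sin ψ ^ 2)
  have hk : Continuous k :=
    intervalIntegral.continuous_parametric_intervalIntegral_of_continuous'
      (f := fun v ψ => W (v * sin ψ ^ 2))
      (hW.comp (by fun_prop : Continuous fun p : ℝ × ℝ => p.1 * sin p.2 ^ 2)) _ _
  have hd : √(b - c) ^ 2 = b - c := Real.sq_sqrt (by linarith)
  have hd0 : 0 ≤ √(b - c) := Real.sqrt_nonneg _
  have s4 : ∫ ρ in Ioi (0:ℝ), ∫ ψ in Ioo (-π) π, Ψ (ρ, ψ) =
      ∫ ρ in (0:ℝ)..√(b - c), (h (b - ρ ^ 2) * k (ρ ^ 2)) * (2 * ρ) := by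
    have e : ∀ ρ, ∫ ψ in Ioo (-π) π, Ψ (ρ, ψ) = (h (b - ρ ^ 2) * k (ρ ^ 2)) * (2 * ρ) := by
      intro ρ
      simp only [Ψ, k]
      rw [integral_const_mul, integral_const_mul, intervalIntegral.integral_of_le
        (by linarith [pi_pos]), integral_Ioc_eq_integral_Ioo]
      ring
    simp only [e]
    rw [intervalIntegral.integral_of_le hd0]
    refine setIntegral_eq_of_subset_of_forall_diff_eq_zero measurableSet_Ioi
      (fun x hx => hx.1) fun ρ hρ => ?_
    have h3 : √(b - c) < ρ := not_le.1 fun h' => hρ.2 ⟨hρ.1, h'⟩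
    rw [h0 _ (by nlinarith)]
    ring
  have s5 : ∫ ρ in (0:ℝ)..√(b - c), (h (b - ρ ^ 2) * k (ρ ^ 2)) * (2 * ρ) =
      ∫ v in (0:ℝ)..(b - c), h (b - v) * k v := by
    have e := intervalIntegral.integral_comp_mul_deriv (a := 0) (b := √(b - c))
      (f := fun ρ => ρ ^ 2) (f' := fun ρ => 2 * ρ) (g := fun v => h (b - v) * k v)
      (fun x _ => by simpa using hasDerivAt_pow 2 x) (by fun_prop) (by fun_prop)
    simp only [hd, ne_eq, OfNat.ofNat_ne_zero, not_false_eq_true, zero_pow] at e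
    exact e
  rw [s1, s2, s3, s4, s5]
  refine intervalIntegral.integral_congr fun v hv => ?_
  rw [uIcc_of_le (by linarith)] at hv
  simp only [k, ker]
  congr 1
  refine intervalIntegral.integral_congr fun ψ _ => ?_
  refine hWeq _ ?_
  have h3 : sin ψ ^ 2 ≤ 1 := sin_sq_le_one ψ
  nlinarith [hv.1, hv.2]

theorem ker_zero {B : ℝ} (hB : 0 < B) : ker B 0 ≠ 0 := by
  unfold ker
  simp only [zero_mul, zero_div, sub_zero, intervalIntegral.integral_const, smul_eq_mul]
  have h1 : 0 < √(2 * B) := Real.sqrt_pos.2 (by linarith)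
  have h2 : 0 < π - -π := by linarith [pi_pos]
  positivity

theorem contDiff_ker {Bf q : ℝ × ℝ → ℝ} (hB : ContDiff ℝ ∞ Bf) (hq : ContDiff ℝ ∞ q)
    (h1 : ∀ p, 0 < Bf p) (h2 : ∀ p, q p < 2 * Bf p) :
    ContDiff ℝ ∞ fun p => ker (Bf p) (q p) := by
  refine contDiff_par (fun p ψ => (1 - q p * sin ψ ^ 2 / Bf p) / √(2 * Bf p - q p * sin ψ ^ 2))
    ?_ _ _
  have hpos : ∀ z : (ℝ × ℝ) × ℝ, 0 < 2 * Bf z.1 - q z.1 * sin z.2 ^ 2 := by
    intro z
    have h3 : sin z.2 ^ 2 ≤ 1 := sin_sq_le_one _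
    have h4 := sq_nonneg (sin z.2)
    have h5 := h1 z.1
    have h6 := h2 z.1
    rcases le_total (q z.1) 0 with h | h <;> nlinarith
  have hB' : ContDiff ℝ ∞ fun z : (ℝ × ℝ) × ℝ => Bf z.1 := hB.comp contDiff_fst
  have hq' : ContDiff ℝ ∞ fun z : (ℝ × ℝ) × ℝ => q z.1 * sin z.2 ^ 2 :=
    (hq.comp contDiff_fst).mul ((contDiff_sin.comp contDiff_snd).pow 2)
  refine ContDiff.div (contDiff_const.sub (hq'.div hB' fun z => (h1 z.1).ne'))
    (((contDiff_const.mul hB').sub hq').sqrt fun z => (hpos z).ne') fun z => ?_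
  exact (Real.sqrt_pos.2 (hpos z)).ne'

end Pool.Agent.H172Z.Morera
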