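import Mathlib
import Pool.Agent.H172Z.Morera.Kernel

/-!
# A smooth radial function with vanishing integrals over the circles of radius `α (1 - |z|)`
-/

open MeasureTheory Set Filter Topology Real
open scoped ContDiff

namespace Pool.Agent.H172Z.Morera

/-- the square of the largest modulus on the circle -/
def bb (α s : ℝ) : ℝ := (α + (1 - α) * s) ^ 2

/-- the amplitude of the square of the modulus on the circle -/
def BB (α s : ℝ) : ℝ := 2 * s * (α * (1 - s))

/-- the circle integral of the radial function with profile `g` -/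
noncomputable def JJ (α : ℝ) (g : ℝ → ℝ) (s : ℝ) : ℝ :=
  ∫ φ in (-π)..π, g (bb α s - BB α s + BB α s * cos φ) * cos φ

theorem contDiff_JJ (α : ℝ) {g : ℝ → ℝ} (hg : ContDiff ℝ ∞ g) : ContDiff ℝ ∞ (JJ α g) := by
  refine contDiff_par (fun s φ => g (bb α s - BB α s + BB α s * cos φ) * cos φ) ?_ _ _
  refine ContDiff.mul (hg.comp ?_) (by fun_prop)
  unfold bb BB
  fun_prop

theorem bb_mono {α s t : ℝ} (h0 : 0 < α) (h1 : α < 1) (hs : 0 ≤ s) (hst : s ≤ t) :
    bb α s ≤ bb α t := by
  unfold bb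
  have : 0 ≤ (1 - α) * s := mul_nonneg (by linarith) hs
  have : (1 - α) * s ≤ (1 - α) * t := mul_le_mul_of_nonneg_left hst (by linarith)
  nlinarith

theorem BB_nonneg {α s : ℝ} (h0 : 0 < α) (hs : 0 ≤ s) (hs1 : s ≤ 1) : 0 ≤ BB α s := by
  unfold BB
  have : 0 ≤ 1 - s := by linarith
  positivity

theorem JJ_congr {α s : ℝ} (h0 : 0 < α) (hs : 0 ≤ s) (hs1 : s ≤ 1) {g g' : ℝ → ℝ}
    (h : ∀ t ≤ bb α s, g t = g' t) : JJ α g s = JJ α g' s := by
  refine intervalIntegral.integral_congr fun φ _ => ?_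
  have h1 := BB_nonneg h0 hs hs1
  have h2 := cos_le_one φ
  show g _ * _ = g' _ * _
  rw [h _ (by nlinarith)]

theorem continuousOn_ker {B d : ℝ} (hB : 0 < B) (hd0 : 0 ≤ d) (hd : d < 2 * B) :
    ContinuousOn (ker B) (Iic d) := by
  have hη : 0 < 2 * B - d := by linarith
  have h1 : Continuous fun v : ℝ => ∫ ψ in (-π)..π,
      (1 - v * sin ψ ^ 2 / B) / √(max (2 * B - v * sin ψ ^ 2) (2 * B - d)) := by
    refine intervalIntegral.continuous_parametric_intervalIntegral_of_continuous'
      (f := fun v ψ => (1 - v * sin ψ ^ 2 / B) / √(max (2 * B - v * sin ψ ^ 2) (2 * B - d)))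
      ?_ _ _
    show Continuous fun p : ℝ × ℝ =>
      (1 - p.1 * sin p.2 ^ 2 / B) / √(max (2 * B - p.1 * sin p.2 ^ 2) (2 * B - d))
    refine Continuous.div (by fun_prop) (by fun_prop) fun p => ?_
    exact (Real.sqrt_pos.2 (hη.trans_le (le_max_right _ _))).ne'
  refine h1.continuousOn.congr fun v hv => ?_
  unfold ker
  refine intervalIntegral.integral_congr fun ψ _ => ?_
  have h3 : sin ψ ^ 2 ≤ 1 := sin_sq_le_one ψ
  have h4 := sq_nonneg (sin ψ)
  have h5 : v ≤ d := hv
  have h6 : 2 * B - d ≤ 2 * B - v * sin ψ ^ 2 := by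
    rcases le_total v 0 with h | h <;> nlinarith
  show _ = _ / √(max _ _)
  rw [max_eq_left h6]

theorem step {α : ℝ} (h0 : 0 < α) (h1 : α < 1) {σ : ℝ} (hσ0 : 0 < σ) (hσ1 : σ < 1) {g : ℝ → ℝ}
    (hg : ContDiff ℝ ∞ g) (hJ : ∀ s ∈ Icc 0 σ, JJ α g s = 0) :
    ∃ g' : ℝ → ℝ, ContDiff ℝ ∞ g' ∧ (∀ t ≤ bb α σ, g' t = g t) ∧
      ∀ s ∈ Icc 0 (1 - (1 - α) * (1 - σ)), JJ α g' s = 0 := by
  set σ' := 1 - (1 - α) * (1 - σ) with hσ'
  have hy : 0 < 1 - σ := by linarith
  have ha : 0 < 1 - α := by linarith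
  have hσσ : σ < σ' := by rw [hσ']; nlinarith
  have hσ'1 : σ' < 1 := by rw [hσ']; nlinarith
  set ε := min (α * (1 - α) * (1 - σ) / 4) (σ / 2) with hε
  have hε0 : 0 < ε := lt_min (by positivity) (by positivity)
  have hε1 : ε ≤ α * (1 - α) * (1 - σ) / 4 := min_le_left _ _
  have hε2 : ε ≤ σ / 2 := min_le_right _ _
  -- a smooth retraction
  let χ : ContDiffBump ((σ + σ') / 2) :=
    ⟨(σ' - σ) / 2, (σ' - σ) / 2 + ε, by linarith, by linarith⟩
  let ρ : ℝ → ℝ := fun x => (σ + σ') / 2 + χ x * (x - (σ + σ') / 2)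
  have hρ : ContDiff ℝ ∞ ρ :=
    contDiff_const.add ((χ.contDiff (n := ⊤)).mul (contDiff_id.sub contDiff_const))
  have hρ1 : ∀ x ∈ Icc σ σ', ρ x = x := by
    intro x hx
    have : χ x = 1 := by
      apply χ.one_of_mem_closedBall
      rw [Metric.mem_closedBall, Real.dist_eq, abs_le]
      show -((σ' - σ) / 2) ≤ _ ∧ _ ≤ (σ' - σ) / 2
      constructor <;> linarith [hx.1, hx.2]
    simp only [ρ, this]
    ring
  have hρ2 : ∀ x, σ - ε ≤ ρ x ∧ ρ x ≤ σ' + ε := by
    intro x
    have h2 : 0 ≤ χ x := χ.nonneg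
    have h3 : χ x ≤ 1 := χ.le_one
    by_cases h4 : (σ' - σ) / 2 + ε ≤ dist x ((σ + σ') / 2)
    · have : χ x = 0 := χ.zero_of_le_dist h4
      simp only [ρ, this]
      constructor <;> linarith
    · rw [not_le, Real.dist_eq, abs_lt] at h4
      simp only [ρ]
      constructor <;> nlinarith [h4.1, h4.2]
  have hρ3 : ∀ x, 0 < ρ x ∧ ρ x < 1 := by
    intro x
    have := hρ2 x
    constructor
    · linarith
    · have h5 : α * (1 - α) * (1 - σ) / 4 < (1 - α) * (1 - σ) := by
        have : 0 < (1 - α) * (1 - σ) := by positivity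
        nlinarith
      linarith
  have hBpos : ∀ x, 0 < BB α (ρ x) := by
    intro x
    have h2 := (hρ3 x).1
    have h3 : 0 < 1 - ρ x := by linarith [(hρ3 x).2]
    unfold BB
    positivity
  have hgap : ∀ x y, bb α (ρ x) - bb α (ρ y) < 2 * BB α (ρ x) := by
    intro x y
    have h2 := hρ2 x
    have h3 := hρ2 y
    have h4 := hρ3 x
    have h5 := hρ3 y
    have e : bb α (ρ x) - 2 * BB α (ρ x) = (ρ x - α * (1 - ρ x)) ^ 2 := by
      unfold bb BB; ring
    have h6 : (ρ x - α * (1 - ρ x)) ^ 2 < bb α (ρ y) := by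
      unfold bb
      apply sq_lt_sq'
      · nlinarith [mul_pos ha h5.1, mul_pos h0 h4.1]
      · have h7 : (1 - α) * (1 - ρ y) ≤ (1 - α) * (1 - σ + ε) :=
          mul_le_mul_of_nonneg_left (by linarith) ha.le
        have h8 : (1 + α) * ((1 - α) * (1 - σ) - ε) ≤ (1 + α) * (1 - ρ x) :=
          mul_le_mul_of_nonneg_left (by linarith) (by linarith)
        have h9 : 0 < α * (1 - α) * (1 - σ) := by positivity
        nlinarith
    linarith
  let κ : ℝ × ℝ → ℝ := fun p => ker (BB α (ρ p.1)) (bb α (ρ p.1) - bb α (ρ p.2)) *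
    (2 * (α + (1 - α) * ρ p.2) * (1 - α))
  have hκ : ContDiff ℝ ∞ κ := by
    have h2 : ContDiff ℝ ∞ fun p : ℝ × ℝ => ρ p.1 := hρ.comp contDiff_fst
    have h3 : ContDiff ℝ ∞ fun p : ℝ × ℝ => ρ p.2 := hρ.comp contDiff_snd
    refine ContDiff.mul (contDiff_ker (Bf := fun p => BB α (ρ p.1))
      (q := fun p => bb α (ρ p.1) - bb α (ρ p.2)) ?_ ?_ (fun p => hBpos p.1)
      fun p => hgap p.1 p.2) ?_
    · unfold BB; fun_prop
    · unfold bb; fun_prop
    · fun_prop
  have hκd : ∀ s, κ (s, s) ≠ 0 := by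
    intro s
    simp only [κ, sub_self]
    have h2 := (hρ3 s).1
    exact mul_ne_zero (ker_zero (hBpos s)) (by positivity)
  let F : ℝ → ℝ := fun s => -(smoothTransition (s / σ) * JJ α g s)
  have hF : ContDiff ℝ ∞ F :=
    ((smoothTransition.contDiff.comp (contDiff_id.div_const σ)).mul (contDiff_JJ α hg)).neg
  have hF0 : ∀ s ≤ σ, F s = 0 := by
    intro s hs
    rcases le_total s 0 with h | h
    · simp only [F, smoothTransition.zero_of_nonpos (div_nonpos_of_nonpos_of_nonneg h hσ0.le),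
        zero_mul, neg_zero]
    · simp only [F, hJ s ⟨h, hs⟩, mul_zero, neg_zero]
  obtain ⟨H, hH1, hH2, hH3⟩ := exists_first_kind σ σ' hσσ F hF hF0 κ hκ hκd
  let h : ℝ → ℝ := fun u => H ((√u - α) / (1 - α))
  have hR : 0 < α + (1 - α) * σ := by positivity
  have hh0 : ∀ u ≤ bb α σ, h u = 0 := by
    intro u hu
    apply hH2
    rw [div_le_iff₀ ha]
    have : √u ≤ α + (1 - α) * σ := Real.sqrt_le_iff.2 ⟨hR.le, hu⟩
    linarith
  have hh : ContDiff ℝ ∞ h := by
    rw [contDiff_iff_contDiffAt]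
    intro u
    by_cases hu : u = 0
    · have : h =ᶠ[𝓝 u] fun _ => 0 := by
        have h2 : u < bb α σ := by rw [hu]; unfold bb; positivity
        filter_upwards [Iio_mem_nhds h2] with y hy using hh0 y (le_of_lt hy)
      exact contDiffAt_const.congr_of_eventuallyEq this
    · exact hH1.contDiffAt.comp u (((contDiffAt_sqrt hu).sub contDiffAt_const).div_const _)
  have hhb : ∀ x, 0 ≤ x → h (bb α x) = H x := by
    intro x hx
    simp only [h, bb]
    rw [Real.sqrt_sq (by positivity)]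
    congr 1
    field_simp
    ring
  refine ⟨fun t => g t + half h t, hg.add (contDiff_half hh), fun t ht => by
    simp only [half_eq_zero hh0 ht, add_zero], fun s hs => ?_⟩
  rcases le_total s σ with h2 | h2
  · rw [← hJ s ⟨hs.1, h2⟩]
    refine JJ_congr h0 hs.1 (by linarith) fun t ht => ?_
    simp only [half_eq_zero hh0 (ht.trans (bb_mono h0 h1 hs.1 h2)), add_zero]
  · have hsm : s ∈ Icc σ σ' := ⟨h2, hs.2⟩
    have e1 : JJ α (fun t => g t + half h t) s = JJ α g s + JJ α (half h) s := by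
      unfold JJ
      have c1 := hg.continuous
      have c2 := (contDiff_half hh).continuous
      rw [← intervalIntegral.integral_add (Continuous.intervalIntegrable (by fun_prop) _ _)
        (Continuous.intervalIntegrable (by fun_prop) _ _)]
      congr 1
      funext φ
      ring
    have hB := hBpos s
    have hg2 := hgap s σ
    rw [hρ1 s hsm] at hB hg2
    rw [hρ1 σ ⟨le_rfl, hσσ.le⟩] at hg2
    have hb1 : bb α s - bb α σ < 1 := by
      have h3 : bb α s ≤ bb α 1 := bb_mono h0 h1 hs.1 (by linarith [hs.2])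
      have h4 : bb α 1 = 1 := by unfold bb; ring
      have h5 : 0 < bb α σ := by unfold bb; positivity
      linarith
    have e2 : JJ α (half h) s =
        ∫ v in (0:ℝ)..(bb α s - bb α σ), h (bb α s - v) * ker (BB α s) v :=
      abel hh.continuous hh0 hB (bb_mono h0 h1 hσ0.le h2) hb1 hg2
    have e3 : ∫ v in (0:ℝ)..(bb α s - bb α σ), h (bb α s - v) * ker (BB α s) v =
        ∫ u in σ..s, H u * κ (s, u) := by
      have c1 : ContinuousOn (fun v => h (bb α s - v) * ker (BB α s) v)
          ((fun u => bb α s - bb α u) '' uIcc σ s) := by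
        have c2 := hh.continuous
        refine ContinuousOn.mul (Continuous.continuousOn (by fun_prop))
          ((continuousOn_ker hB (sub_nonneg.2 (bb_mono h0 h1 hσ0.le h2)) hg2).mono ?_)
        rintro _ ⟨u, hu, rfl⟩
        rw [uIcc_of_le h2] at hu
        have := bb_mono h0 h1 hσ0.le hu.1
        show bb α s - bb α u ≤ _
        linarith
      have e4 := intervalIntegral.integral_comp_mul_deriv' (a := σ) (b := s)
        (f := fun u => bb α s - bb α u) (f' := fun u => -(2 * (α + (1 - α) * u) * (1 - α)))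
        (g := fun v => h (bb α s - v) * ker (BB α s) v) (fun x _ => by
          have h3 : HasDerivAt (fun u => α + (1 - α) * u) (1 - α) x := by
            simpa using ((hasDerivAt_id x).const_mul (1 - α)).const_add α
          have h4 := (h3.pow 2).const_sub (bb α s)
          refine h4.congr_deriv ?_
          simp) (by fun_prop) c1
      simp only [sub_self] at e4
      rw [intervalIntegral.integral_symm, ← e4, ← intervalIntegral.integral_neg]
      refine intervalIntegral.integral_congr fun u hu => ?_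
      rw [uIcc_of_le h2] at hu
      have hum : u ∈ Icc σ σ' := ⟨hu.1, hu.2.trans hs.2⟩
      simp only [Function.comp, κ, hρ1 s hsm, hρ1 u hum, sub_sub_cancel,
        hhb u (hσ0.le.trans hu.1)]
      ring
    rw [e1, e2, e3, hH3 s hsm]
    simp only [F]
    rw [smoothTransition.one_of_one_le ((one_le_div hσ0).2 h2)]
    ring

/-- the profile -/
theorem exists_profile {α : ℝ} (h0 : 0 < α) (h1 : α < 1) :
    ∃ g : ℝ → ℝ, (∀ t < 1, ContDiffAt ℝ ∞ g t) ∧ (∀ s ∈ Ico (0:ℝ) 1, JJ α g s = 0) ∧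
      (∀ t ≤ α ^ 2 / 16, g t = 0) ∧ g (α ^ 2 / 8) = 1 := by
  have ha : 0 < 1 - α := by linarith
  have hα2 : 0 < α ^ 2 := by positivity
  let χ : ContDiffBump (α ^ 2 / 8) := ⟨α ^ 2 / 32, α ^ 2 / 16, by positivity, by linarith⟩
  let σ : ℕ → ℝ := fun n => 1 - (1 - α) ^ n * (1 - α / 4)
  have hσs : ∀ n, σ (n + 1) = 1 - (1 - α) * (1 - σ n) := fun n => by simp only [σ]; ring
  have hσ1 : ∀ n, σ n < 1 := fun n => by
    have : 0 < (1 - α) ^ n * (1 - α / 4) := mul_pos (pow_pos ha n) (by linarith)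
    simp only [σ]; linarith
  have hσmono : Monotone σ := monotone_nat_of_le_succ fun n => by
    rw [hσs]; nlinarith [hσ1 n]
  have hσ00 : σ 0 = α / 4 := by simp [σ]
  have hσ0 : ∀ n, 0 < σ n := fun n => lt_of_lt_of_le (by rw [hσ00]; positivity)
    (hσmono (Nat.zero_le n))
  have hσlim : Tendsto σ atTop (𝓝 1) := by
    have h2 := (tendsto_pow_atTop_nhds_zero_of_lt_one ha.le (by linarith)).mul_const (1 - α / 4)
    simpa using h2.const_sub 1
  have hbase : ∀ s ∈ Icc 0 (σ 0), JJ α χ s = 0 := by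
    intro s hs
    rw [hσ00] at hs
    unfold JJ
    rw [intervalIntegral.integral_congr (g := fun _ => 0)]
    · simp
    · intro φ _
      have h2 := BB_nonneg h0 hs.1 (by linarith [hs.2])
      have h3 := neg_one_le_cos φ
      have e : bb α s - 2 * BB α s = (α - (1 + α) * s) ^ 2 := by unfold bb BB; ring
      have h4 : α / 2 ≤ α - (1 + α) * s := by nlinarith [hs.1, hs.2]
      have h5 : (α / 2) ^ 2 ≤ (α - (1 + α) * s) ^ 2 := by gcongr
      have h6 : χ (bb α s - BB α s + BB α s * cos φ) = 0 := by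
        apply χ.zero_of_le_dist
        rw [Real.dist_eq]
        show α ^ 2 / 16 ≤ _
        exact le_trans (by nlinarith) (le_abs_self _)
      show χ _ * _ = 0
      rw [h6, zero_mul]
  let Q : ℕ → (ℝ → ℝ) → Prop := fun n g => ContDiff ℝ ∞ g ∧ ∀ s ∈ Icc 0 (σ n), JJ α g s = 0
  have hstep : ∀ n, ∀ g : {g // Q n g}, ∃ g' : {g // Q (n + 1) g},
      ∀ t ≤ bb α (σ n), g'.1 t = g.1 t := by
    intro n g
    obtain ⟨g', h2, h3, h4⟩ := step h0 h1 (hσ0 n) (hσ1 n) g.2.1 g.2.2
    exact ⟨⟨g', h2, by rw [hσs]; exact h4⟩, h3⟩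
  choose nx hnx using hstep
  let G : ∀ n, {g // Q n g} := fun n =>
    Nat.rec (motive := fun n => {g // Q n g}) ⟨χ, χ.contDiff, hbase⟩ (fun n g => nx n g) n
  have hG : ∀ n m, n ≤ m → ∀ t ≤ bb α (σ n), (G m).1 t = (G n).1 t := by
    intro n m hnm t ht
    induction m, hnm using Nat.le_induction with
    | base => rfl
    | succ m hm ih =>
      rw [← ih]
      exact hnx m (G m) t (ht.trans (bb_mono h0 h1 (hσ0 n).le (hσmono hm)))
  have hex : ∀ t : ℝ, ∃ n, t < 1 → t < bb α (σ n) := by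
    intro t
    by_cases ht : t < 1
    · have h2 : Tendsto (fun n => bb α (σ n)) atTop (𝓝 (bb α 1)) := by
        have : Continuous (bb α) := by unfold bb; fun_prop
        exact (this.tendsto 1).comp hσlim
      have h3 : bb α 1 = 1 := by unfold bb; ring
      rw [h3] at h2
      obtain ⟨n, hn⟩ := (h2.eventually (Ioi_mem_nhds ht)).exists
      exact ⟨n, fun _ => hn⟩
    · exact ⟨0, fun h => absurd h ht⟩
  choose N hN using hex
  have hbb1 : ∀ n, bb α (σ n) < 1 := by
    intro n
    have h2 : 0 < α + (1 - α) * σ n := by have := hσ0 n; positivity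
    have h3 : α + (1 - α) * σ n < 1 := by nlinarith [hσ1 n]
    unfold bb
    nlinarith
  have hg : ∀ n, ∀ t ≤ bb α (σ n), (G (N t)).1 t = (G n).1 t := by
    intro n t ht
    rcases le_total n (N t) with h | h
    · exact hG n (N t) h t ht
    · exact (hG (N t) n h t (hN t (ht.trans_lt (hbb1 n))).le).symm
  have hb0 : α ^ 2 ≤ bb α (σ 0) := by
    have := bb_mono h0 h1 le_rfl (hσ0 0).le
    simpa [bb] using this
  refine ⟨fun t => (G (N t)).1 t, fun t ht => ?_, fun s hs => ?_, fun t ht => ?_, ?_⟩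
  · refine (G (N t)).2.1.contDiffAt.congr_of_eventuallyEq ?_
    filter_upwards [Iio_mem_nhds (hN t ht)] with y hy using hg (N t) y (le_of_lt hy)
  · obtain ⟨n, hn⟩ := (hσlim.eventually (Ioi_mem_nhds hs.2)).exists
    rw [← (G n).2.2 s ⟨hs.1, le_of_lt hn⟩]
    exact JJ_congr h0 hs.1 hs.2.le fun t ht =>
      hg n t (ht.trans (bb_mono h0 h1 hs.1 (le_of_lt hn)))
  · show (G (N t)).1 t = 0
    rw [hg 0 t (by linarith)]
    apply χ.zero_of_le_dist
    rw [Real.dist_eq]
    show α ^ 2 / 16 ≤ _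
    exact le_trans (by linarith) (neg_le_abs _)
  · show (G (N _)).1 _ = 1
    rw [hg 0 _ (by linarith)]
    exact χ.one_of_mem_closedBall (Metric.mem_closedBall_self χ.rIn_pos.le)

theorem circle_radial {α : ℝ} (h0 : 0 < α) (h1 : α < 1) {g : ℝ → ℝ}
    (hg : ∀ t < 1, ContinuousAt g t) {z : ℂ} (hz : ‖z‖ < 1) (hJ : JJ α g ‖z‖ = 0) :
    circleIntegral (fun ζ => (g (Complex.normSq ζ) : ℂ)) z (α * (1 - ‖z‖)) = 0 := by
  set s := ‖z‖ with hs
  have hs0 : 0 ≤ s := norm_nonneg z
  set r := α * (1 - s) with hr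
  let u : ℝ → ℝ := fun φ => g (bb α s - BB α s + BB α s * cos φ)
  have hu : Continuous u := by
    rw [continuous_iff_continuousAt]
    intro φ
    refine ContinuousAt.comp (hg _ ?_) (by fun_prop)
    have h2 := BB_nonneg h0 hs0 hz.le
    have h3 := cos_le_one φ
    have h4 : 0 < α + (1 - α) * s := by have : 0 < 1 - α := by linarith
                                        positivity
    have h5 : α + (1 - α) * s < 1 := by nlinarith
    have h6 : bb α s < 1 := by unfold bb; nlinarith
    nlinarith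
  have hz' : z = s * Complex.exp (z.arg * Complex.I) := (Complex.norm_mul_exp_arg_mul_I z).symm
  have hnorm : ∀ θ : ℝ, Complex.normSq (circleMap z r θ) =
      bb α s - BB α s + BB α s * cos (θ - z.arg) := by
    intro θ
    have e1 : z.re = s * cos z.arg := by
      rw [hs]; exact (Complex.norm_mul_cos_arg z).symm
    have e2 : z.im = s * sin z.arg := by
      rw [hs]; exact (Complex.norm_mul_sin_arg z).symm
    rw [Complex.normSq_apply, cos_sub]
    simp only [circleMap, Complex.add_re, Complex.add_im, Complex.mul_re, Complex.mul_im,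
      Complex.ofReal_re, Complex.ofReal_im, Complex.exp_ofReal_mul_I_re,
      Complex.exp_ofReal_mul_I_im, zero_mul, sub_zero, add_zero, e1, e2]
    unfold bb BB
    rw [hr]
    have h2 := sin_sq_add_cos_sq θ
    have h3 := sin_sq_add_cos_sq z.arg
    linear_combination s ^ 2 * h3 + (α * (1 - s)) ^ 2 * h2
  let w : ℝ → ℂ := fun φ => Complex.exp (φ * Complex.I) * (u φ : ℂ)
  have hwper : Function.Periodic w (2 * π) := by
    intro φ
    simp only [w, u, cos_add_two_pi]
    congr 1
    push_cast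
    rw [add_mul, Complex.exp_add, Complex.exp_two_pi_mul_I, mul_one]
  have hsin : ∫ φ in (-π)..π, u φ * sin φ = 0 := by
    have h2 := intervalIntegral.integral_comp_neg (a := -π) (b := π) (fun φ => u φ * sin φ)
    simp only [u, cos_neg, sin_neg, mul_neg, intervalIntegral.integral_neg, neg_neg] at h2
    simp only [u]
    linarith
  have hw : ∫ φ in (-π)..π, w φ = 0 := by
    have e : ∀ φ : ℝ, w φ = ((u φ * cos φ : ℝ) : ℂ) + ((u φ * sin φ : ℝ) : ℂ) * Complex.I := by
      intro φ
      simp only [w]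
      rw [Complex.exp_mul_I]
      push_cast
      ring
    simp only [e]
    rw [intervalIntegral.integral_add (Continuous.intervalIntegrable (by fun_prop) _ _)
      (Continuous.intervalIntegrable (by fun_prop) _ _), intervalIntegral.integral_mul_const,
      intervalIntegral.integral_ofReal, intervalIntegral.integral_ofReal, hsin]
    have : ∫ φ in (-π)..π, u φ * cos φ = 0 := hJ
    rw [this]
    simp
  have e3 : ∀ θ : ℝ, deriv (circleMap z r) θ • (g (Complex.normSq (circleMap z r θ)) : ℂ) =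
      (r * Complex.I * Complex.exp (z.arg * Complex.I)) * w (θ - z.arg) := by
    intro θ
    rw [deriv_circleMap, hnorm]
    simp only [w, u, circleMap, zero_add, smul_eq_mul]
    have : Complex.exp (θ * Complex.I) =
        Complex.exp (z.arg * Complex.I) * Complex.exp ((θ - z.arg : ℝ) * Complex.I) := by
      rw [← Complex.exp_add]; congr 1; push_cast; ring
    rw [this]
    ring
  unfold circleIntegral
  simp only [e3]
  rw [intervalIntegral.integral_const_mul, intervalIntegral.integral_comp_sub_right]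
  have h2 := hwper.intervalIntegral_add_eq (0 - z.arg) (-π)
  rw [show 0 - z.arg + 2 * π = 2 * π - z.arg by ring, show -π + 2 * π = π by ring] at h2
  rw [h2, hw, mul_zero]

theorem main (α : ℝ) (h0 : 0 < α) (h1 : α < 1) : ∃ f : ℂ → ℂ,
    ContDiffOn ℝ ∞ f (Metric.ball 0 1) ∧
      (∀ z : ℂ, ‖z‖ < 1 → circleIntegral f z (α * (1 - ‖z‖)) = 0) ∧
        ¬ AnalyticOn ℂ f (Metric.ball 0 1) := by
  obtain ⟨g, h2, h3, h4, h5⟩ := exists_profile h0 h1
  refine ⟨fun ζ => (g (Complex.normSq ζ) : ℂ), fun ζ hζ => ?_, fun z hz =>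
    circle_radial h0 h1 (fun t ht => (h2 t ht).continuousAt) hz (h3 _ ⟨norm_nonneg z, hz⟩),
    fun h => ?_⟩
  · have h6 : ‖ζ‖ < 1 := by simpa using hζ
    have h7 : Complex.normSq ζ < 1 := by
      rw [Complex.normSq_eq_norm_sq]; nlinarith [norm_nonneg ζ]
    have h8 : ContDiff ℝ ∞ fun ζ : ℂ => Complex.normSq ζ := by
      have : (fun ζ : ℂ => Complex.normSq ζ) =
          fun ζ => Complex.reCLM ζ * Complex.reCLM ζ + Complex.imCLM ζ * Complex.imCLM ζ := by
        funext ζ; simp [Complex.normSq_apply]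
      rw [this]
      fun_prop
    exact (Complex.ofRealCLM.contDiff.contDiffAt.comp ζ
      ((h2 _ h7).comp ζ h8.contDiffAt)).contDiffWithinAt
  · have h6 := (Metric.isOpen_ball.analyticOn_iff_analyticOnNhd).1 h
    have h7 : (fun ζ : ℂ => (g (Complex.normSq ζ) : ℂ)) =ᶠ[𝓝 0] 0 := by
      filter_upwards [Metric.ball_mem_nhds (0:ℂ) (show 0 < α / 4 by positivity)] with ζ hζ
      have h8 : ‖ζ‖ < α / 4 := by simpa using hζ
      have h9 : Complex.normSq ζ ≤ α ^ 2 / 16 := by
        rw [Complex.normSq_eq_norm_sq]; nlinarith [norm_nonneg ζ]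
      simp [h4 _ h9]
    have h8 := h6.eqOn_zero_of_preconnected_of_eventuallyEq_zero
      (convex_ball (0:ℂ) 1).isPreconnected (Metric.mem_ball_self one_pos) h7
    have h9 : ((√(α ^ 2 / 8) : ℝ) : ℂ) ∈ Metric.ball (0:ℂ) 1 := by
      rw [Metric.mem_ball, dist_zero_right, Complex.norm_real, Real.norm_eq_abs,
        abs_of_nonneg (Real.sqrt_nonneg _), Real.sqrt_lt' one_pos]
      nlinarith
    have h10 := h8 h9
    simp only [Complex.normSq_ofReal, Pi.zero_apply, Complex.ofReal_eq_zero] at h10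
    rw [Real.mul_self_sqrt (by positivity), h5] at h10
    exact one_ne_zero h10

end Pool.Agent.H172Z.Morera
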